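import Pool.Agent.N993.WX.Stm
import Pool.Agent.N993.WU.Rep

/-!
# WX/CNTY: words in the generators `Y` with repetitions are rare
-/

set_option autoImplicit false

namespace Pool.Agent.N222.WX

open Pool.Agent.N993.WT (RW flip)
open Pool.Agent.N993.WU (NoRep)

theorem finRW (n k : ℕ) : Finite (RW n k) :=
  inferInstanceAs (Finite {w : Fin k → Fin n × Bool // ∀ i j : Fin k, (j : ℕ) = i + 1 → w j ≠ flip (w i)})

section

variable {n y : ℕ} {Y : Finset (Fin n)} (E : Fin y ≃ Y)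

/-- relabelling of a letter -/
def LL (z : Fin y × Bool) : Fin n × Bool := ((E z.1 : Fin n), z.2)

theorem LL_inj {z z' : Fin y × Bool} (h : LL E z = LL E z') : z = z' := by
  unfold LL at h
  rw [Prod.mk.injEq] at h
  exact Prod.ext (E.injective (Subtype.ext h.1)) h.2

theorem LL_flip (z : Fin y × Bool) : LL E (flip z) = flip (LL E z) := rfl

/-- relabelling of a word -/
def up {k : ℕ} (g : RW y k) : RW n k :=
  ⟨fun i => LL E (g.1 i), fun i j hij h => g.2 i j hij (by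
    rw [← LL_flip] at h
    exact LL_inj E h)⟩

/-- the inverse -/
def dn {k : ℕ} (g : RW n k) (hg : ∀ i, (g.1 i).1 ∈ Y) : RW y k :=
  ⟨fun i => (E.symm ⟨(g.1 i).1, hg i⟩, (g.1 i).2), fun i j hij h => g.2 i j hij (by
    have h' : (E.symm ⟨(g.1 j).1, hg j⟩, (g.1 j).2) = (E.symm ⟨(g.1 i).1, hg i⟩, !(g.1 i).2) := h
    rw [Prod.mk.injEq] at h'
    have h1 := congrArg Subtype.val (E.symm.injective h'.1)
    exact Prod.ext h1 h'.2)⟩

theorem up_dn {k : ℕ} (g : RW n k) (hg : ∀ i, (g.1 i).1 ∈ Y) : up E (dn E g hg) = g := by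
  apply Subtype.ext
  funext i
  unfold up dn LL
  simp

theorem up_mem {k : ℕ} (g : RW y k) (i : Fin k) : ((up E g).1 i).1 ∈ Y := (E (g.1 i).1).2

theorem noRep_up {I : Type} {k : I → ℕ} (g : ∀ t, RW y (k t)) (μ : ℕ) (h : NoRep g μ) :
    NoRep (fun t => up E (g t)) μ := by
  intro t t' i i' hi hi'
  constructor
  · intro h1
    exact (h t t' i i' hi hi').1 fun k hk => LL_inj E (h1 k hk)
  · intro h1
    exact (h t t' i i' hi hi').2 fun k hk => LL_inj E (by
      rw [LL_flip]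
      exact h1 k hk)

end

theorem t_cnty : Pool.Agent.N993.WX.S_CNTY := by
  intro n m c hc Y hY k μ hμ
  have E : Fin Y.card ≃ Y := Y.equivFin.symm
  have hr := Pool.Agent.N993.WU.rare hY hc k μ hμ
  have hfn : ∀ t, Finite (RW n (k t)) := fun t => finRW n (k t)
  have hfy : ∀ t, Finite (RW Y.card (k t)) := fun t => finRW Y.card (k t)
  have h1 : Nat.card {g : ∀ t, RW n (k t) // (∀ t i, ((g t).1 i).1 ∈ Y) ∧ ¬ NoRep g μ} ≤
      Nat.card {g : ∀ t, RW Y.card (k t) // ¬ NoRep g μ} := by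
    refine Nat.card_le_card_of_injective
      (fun x => ⟨fun t => dn E (x.1 t) (x.2.1 t), fun hg => x.2.2 ?_⟩) ?_
    · have h2 := noRep_up E _ μ hg
      simp only [up_dn] at h2
      exact h2
    · intro x x' h
      have h' : (fun t => dn E (x.1 t) (x.2.1 t)) = fun t => dn E (x'.1 t) (x'.2.1 t) :=
        congrArg Subtype.val h
      apply Subtype.ext
      funext t
      rw [← up_dn E (x.1 t) (x.2.1 t), ← up_dn E (x'.1 t) (x'.2.1 t)]
      have h3 : dn E (x.1 t) (x.2.1 t) = dn E (x'.1 t) (x'.2.1 t) := congrFun h' t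
      rw [h3]
  have h2 : Nat.card (∀ t, RW Y.card (k t)) ≤
      Nat.card {g : ∀ t, RW n (k t) // ∀ t i, ((g t).1 i).1 ∈ Y} := by
    refine Nat.card_le_card_of_injective
      (fun g => ⟨fun t => up E (g t), fun t i => up_mem E (g t) i⟩) ?_
    intro g g' h
    have h' : (fun t => up E (g t)) = fun t => up E (g' t) := congrArg Subtype.val h
    funext t
    have h3 : up E (g t) = up E (g' t) := congrFun h' t
    apply Subtype.ext
    funext i
    exact LL_inj E (congrFun (congrArg Subtype.val h3) i)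
  have hy : (2 : ℝ) ≤ (Y.card : ℝ) := by exact_mod_cast hY
  have hp : (3 : ℝ) ^ μ ≤ (2 * (Y.card : ℝ) - 1) ^ μ := pow_le_pow_left₀ (by norm_num) (by linarith) μ
  have hp0 : (0 : ℝ) < (2 * (Y.card : ℝ) - 1) ^ μ := lt_of_lt_of_le (by positivity) hp
  rw [div_mul_eq_mul_div, le_div_iff₀ hp0] at hr
  have h1' : (Nat.card {g : ∀ t, RW n (k t) // (∀ t i, ((g t).1 i).1 ∈ Y) ∧ ¬ NoRep g μ} : ℝ) ≤
      Nat.card {g : ∀ t, RW Y.card (k t) // ¬ NoRep g μ} := by exact_mod_cast h1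
  have h2' : (Nat.card (∀ t, RW Y.card (k t)) : ℝ) ≤
      Nat.card {g : ∀ t, RW n (k t) // ∀ t i, ((g t).1 i).1 ∈ Y} := by exact_mod_cast h2
  calc _ ≤ (Nat.card {g : ∀ t, RW Y.card (k t) // ¬ NoRep g μ} : ℝ) * (2 * (Y.card : ℝ) - 1) ^ μ :=
        mul_le_mul h1' hp (by positivity) (Nat.cast_nonneg _)
    _ ≤ 2 * (∑ t, (k t : ℝ)) ^ 2 * Nat.card (∀ t, RW Y.card (k t)) := hr
    _ ≤ _ := mul_le_mul_of_nonneg_left h2' (by positivity)

end Pool.Agent.N222.WX
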